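import Mathlib
import Pool.Agent.Helper69.TS.Stmts
import Pool.Agent.Helper69.TS.Basic

/-!
# The total population
-/

set_option autoImplicit false

open Finset

namespace Pool.Agent.Helper90.TS.sumpop

open Pool.Agent.Helper69.TS

/-- The moduli lie in a short interval. -/
lemma card_P (c : Cfg) (hc : c.Good) : (c.P.card : ℝ) ≤ 9 / 128 * c.Q := by
  have hm := hc.hm
  have h1 : c.P ⊆ Icc c.Q (c.Q + c.Q / 16) := by
    intro p hp
    rw [mem_Icc]
    refine ⟨hc.hlow p hp, ?_⟩
    have h2 := hc.hup p hp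
    have h3 : 16 * p ≤ 17 * c.Q := by
      have h4 : (c.m : ℤ) * (8 * p - 8 * c.Q) ≤ c.Q := by
        have : (8 * c.m * p : ℤ) ≤ (8 * c.m + 1) * c.Q := by exact_mod_cast h2
        linarith
      have h5 : (c.Q : ℤ) ≤ p := by exact_mod_cast hc.hlow p hp
      have h6 : (2 : ℤ) * (8 * p - 8 * c.Q) ≤ (c.m : ℤ) * (8 * p - 8 * c.Q) :=
        mul_le_mul_of_nonneg_right (by exact_mod_cast hm) (by linarith)
      have h7 : (16 * p : ℤ) ≤ 17 * c.Q := by linarith
      exact_mod_cast h7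
    omega
  have h2 := Finset.card_le_card h1
  rw [Nat.card_Icc] at h2
  have h3 : 16 * c.P.card ≤ c.Q + 16 := by omega
  have h4 : (16 * c.P.card : ℝ) ≤ c.Q + 16 := by exact_mod_cast h3
  have h5 := hc.QR
  linarith

/-- The difference of two first coordinates. -/
lemma near_abs (c : Cfg) (hc : c.Good) {w : ℝ} (hw : 1 ≤ w) {s s' : Pt} (hs : s ∈ c.F)
    (hs' : s' ∈ c.F) (h : c.Near w s s') :
    |(s.2 : ℝ) * s'.1 - s'.2 * s.1| ≤ 289 / 256 * w := by
  obtain ⟨h1, -⟩ := h
  have hp := (mem_F.1 hs).1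
  have hq := (mem_F.1 hs').1
  have hp1 := hc.ple hp
  have hq1 := hc.ple hq
  have hp0 := hc.pR hp
  have hq0 := hc.pR hq
  have hQ := hc.QR
  have h2 : (s.2 : ℝ) * s'.1 - s'.2 * s.1 = (Cfg.X s - Cfg.X s') * (s.1 * s'.1) := by
    unfold Cfg.X
    have : (s.1 : ℝ) ≠ 0 := by positivity
    have : (s'.1 : ℝ) ≠ 0 := by positivity
    field_simp
  rw [h2, abs_mul, abs_of_nonneg (by positivity : (0 : ℝ) ≤ s.1 * s'.1)]
  have h3 : (s.1 : ℝ) * s'.1 ≤ 289 / 256 * (c.Q : ℝ) ^ 2 := by
    calc (s.1 : ℝ) * s'.1 ≤ (17 / 16 * c.Q) * (17 / 16 * c.Q) :=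
          mul_le_mul hp1 hq1 (by positivity) (by positivity)
      _ = 289 / 256 * (c.Q : ℝ) ^ 2 := by ring
  calc |Cfg.X s - Cfg.X s'| * (s.1 * s'.1) ≤ (w / (c.Q : ℝ) ^ 2) * (289 / 256 * (c.Q : ℝ) ^ 2) :=
        mul_le_mul h1 h3 (by positivity) (by positivity)
    _ = 289 / 256 * w := by
        have : (c.Q : ℝ) ≠ 0 := by positivity
        field_simp

/-- Close points with the same modulus are equal. -/
lemma same (c : Cfg) (hc : c.Good) {w : ℝ} (hw : 1 ≤ w) (hw2 : 2 * w ≤ c.Q) {s s' : Pt}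
    (hs : s ∈ c.F) (hs' : s' ∈ c.F) (h : c.Near w s s') (he : s.1 = s'.1) : s = s' := by
  have h1 := near_abs c hc hw hs hs' h
  have hp := (mem_F.1 hs).1
  have hpl := hc.leP hp
  have hQ := hc.QR
  obtain ⟨p, t⟩ := s
  obtain ⟨q, t'⟩ := s'
  simp only at he
  subst he
  simp only at h1 hpl
  have h2 : |((t : ℝ) - t')| * p ≤ 289 / 256 * w := by
    have h3 : (t : ℝ) * p - t' * p = (t - t') * p := by ring
    rw [h3, abs_mul, abs_of_nonneg (by positivity : (0 : ℝ) ≤ p)] at h1
    exact h1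
  have h3 : |((t : ℝ) - t')| < 1 := by
    by_contra h4
    rw [not_lt] at h4
    have h5 : (p : ℝ) ≤ |((t : ℝ) - t')| * p := le_mul_of_one_le_left (by positivity) h4
    linarith
  have h4 : |((t : ℤ) - t')| < 1 := by
    have : (|((t : ℤ) - t')| : ℝ) < 1 := by exact_mod_cast h3
    exact_mod_cast this
  have h5 := Int.abs_lt_one_iff.1 h4
  have h6 : t = t' := by omega
  rw [h6]

theorem sumpop : S_sum_pop := by
  classical
  intro c hc w hw hw2
  have hQ := hc.QR
  set T := (c.F ×ˢ c.F).filter (fun z => c.Near w z.1 z.2) with hT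
  have hsum : ∑ s ∈ c.F, (c.pop w s : ℝ) = (T.card : ℝ) := by
    rw [hT, Finset.card_filter, Finset.sum_product]
    push_cast
    refine Finset.sum_congr rfl fun s _ => ?_
    unfold Cfg.pop
    rw [Finset.card_filter]
    push_cast
    refine Finset.sum_congr rfl fun s' _ => ?_
    congr
  rw [hsum]
  have hsplit := Finset.card_filter_add_card_filter_not (s := T) (fun z : Pt × Pt => z.1.1 = z.2.1)
  have h1 : (T.filter (fun z : Pt × Pt => z.1.1 = z.2.1)).card ≤ c.F.card := by
    refine Finset.card_le_card_of_injOn (fun z => z.1) ?_ ?_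
    · intro z hz
      have hz := Finset.mem_filter.1 (Finset.mem_coe.1 hz)
      exact Finset.mem_coe.2 (Finset.mem_product.1 (Finset.mem_filter.1 hz.1).1).1
    · intro z hz z' hz' hzz
      have hz := Finset.mem_filter.1 (Finset.mem_coe.1 hz)
      have hz' := Finset.mem_filter.1 (Finset.mem_coe.1 hz')
      have ha := Finset.mem_filter.1 hz.1
      have ha' := Finset.mem_filter.1 hz'.1
      have hb := Finset.mem_product.1 ha.1
      have hb' := Finset.mem_product.1 ha'.1
      have e1 := same c hc hw hw2 hb.1 hb.2 ha.2 hz.2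
      have e2 := same c hc hw hw2 hb'.1 hb'.2 ha'.2 hz'.2
      simp only at hzz
      exact Prod.ext hzz (by rw [← e1, ← e2, hzz])
  set K : ℕ := ⌊289 / 256 * w⌋₊ with hK
  have hK1 : (K : ℝ) ≤ 289 / 256 * w := Nat.floor_le (by positivity)
  have h2 : (T.filter (fun z : Pt × Pt => ¬ z.1.1 = z.2.1)).card ≤
      ((c.P ×ˢ c.P) ×ˢ Icc (-(K : ℤ)) K).card := by
    refine Finset.card_le_card_of_injOn
      (fun z => ((z.1.1, z.2.1), (z.1.2 : ℤ) * z.2.1 - z.2.2 * z.1.1)) ?_ ?_
    · intro z hz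
      have hz := Finset.mem_filter.1 (Finset.mem_coe.1 hz)
      have ha := Finset.mem_filter.1 hz.1
      have hb := Finset.mem_product.1 ha.1
      have hn := near_abs c hc hw hb.1 hb.2 ha.2
      refine Finset.mem_coe.2 (Finset.mem_product.2 ⟨Finset.mem_product.2
        ⟨(mem_F.1 hb.1).1, (mem_F.1 hb.2).1⟩, ?_⟩)
      simp only
      rw [Finset.mem_Icc, ← abs_le]
      set y : ℤ := (z.1.2 : ℤ) * z.2.1 - z.2.2 * z.1.1 with hy
      have hy' : ((y.natAbs : ℕ) : ℝ) ≤ 289 / 256 * w := by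
        rw [Nat.cast_natAbs, hy]
        push_cast
        exact hn
      have h3 : y.natAbs ≤ K := Nat.le_floor hy'
      rw [Int.abs_eq_natAbs]
      exact_mod_cast h3
    · intro z hz z' hz' hzz
      have hz := Finset.mem_filter.1 (Finset.mem_coe.1 hz)
      have hz' := Finset.mem_filter.1 (Finset.mem_coe.1 hz')
      have hb := Finset.mem_product.1 (Finset.mem_filter.1 hz.1).1
      have hb' := Finset.mem_product.1 (Finset.mem_filter.1 hz'.1).1
      obtain ⟨⟨p, t⟩, ⟨q, t'⟩⟩ := z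
      obtain ⟨⟨p', u⟩, ⟨q', u'⟩⟩ := z'
      simp only [Prod.mk.injEq] at hzz
      obtain ⟨⟨rfl, rfl⟩, hzz⟩ := hzz
      have hpq := hz.2
      have hp := mem_F.1 hb.1
      have hq := mem_F.1 hb.2
      have hu := mem_F.1 hb'.1
      simp only at hpq hp hq hu hzz
      have pp := hc.hprime p hp.1
      have pq := hc.hprime q hq.1
      have h3 : ((t : ℤ) - u) * q = (t' - u') * p := by linarith
      have h4 : (p : ℤ) ∣ ((t : ℤ) - u) * q := ⟨t' - u', by rw [h3]; ring⟩
      have h5 : IsCoprime (p : ℤ) (q : ℤ) := by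
        rw [Nat.isCoprime_iff_coprime]
        exact (Nat.coprime_primes pp pq).2 hpq
      have h6 : (p : ℤ) ∣ (t : ℤ) - u := h5.dvd_of_dvd_mul_right h4
      have h7 : (t : ℤ) - u = 0 := by
        refine Int.eq_zero_of_abs_lt_dvd h6 ?_
        rw [abs_lt]
        constructor <;> omega
      rw [h7, zero_mul] at h3
      have h8 : (t' : ℤ) - u' = 0 := by
        rcases mul_eq_zero.1 h3.symm with h | h
        · exact h
        · exact absurd h (by have := pp.pos; omega)
      have e1 : t = u := by omega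
      have e2 : t' = u' := by omega
      rw [e1, e2]
  rw [Finset.card_product, Finset.card_product, Int.card_Icc] at h2
  have h3 : ((K : ℤ) + 1 - -(K : ℤ)).toNat = 2 * K + 1 := by omega
  rw [h3] at h2
  have h4 : (T.card : ℝ) ≤ c.F.card + c.P.card * c.P.card * (2 * K + 1) := by
    have h5 : T.card ≤ c.F.card + c.P.card * c.P.card * (2 * K + 1) := by omega
    exact_mod_cast h5
  have h5 := card_P c hc
  have h6 := card_F_lower hc
  have hP := hc.card_pos
  have h7 : (c.P.card : ℝ) * c.P.card * (2 * K + 1) ≤ w * c.F.card := by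
    have h8 : (2 * K + 1 : ℝ) ≤ 4 * w := by linarith
    calc (c.P.card : ℝ) * c.P.card * (2 * K + 1) ≤ (c.P.card : ℝ) * (9 / 128 * c.Q) * (4 * w) := by
          gcongr
      _ = w * (c.P.card * (9 / 32 * c.Q)) := by ring
      _ ≤ w * (c.P.card * ((c.Q : ℝ) - 1)) := by
          gcongr
          linarith
      _ ≤ w * c.F.card := by gcongr
  have h9 : (c.F.card : ℝ) ≤ w * c.F.card := le_mul_of_one_le_left (by positivity) hw
  have h10 : 0 ≤ w * c.F.card := by positivity
  linarith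

end Pool.Agent.Helper90.TS.sumpop
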